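import Pool.Agent.NH34.Mot.Defs
import Pool.Agent.NH34.Hdg.Conv
import Pool.Agent.R920.MT.Main

/-!
# Motivated classes: comparison of the definitions
-/

open CategoryTheory AlgebraicGeometry

universe u

namespace Pool.Agent.NH34.Mot

open Pool.Agent.H914 Pool.Agent.H914.VarClass Pool.Agent.H914.VarClass.Obj
  Pool.Agent.H914.WeilCohomology Pool.Agent.NH34.Lin

variable {k : Type u} [Field k] {𝒱 : VarClass k} {ops : CycleOps 𝒱}
  {W : WeilCohomology.{u, 0} ops}

lemma isSystem_iff {P : Property W} : IsSystem P ↔ Pool.Agent.R920.MT.IsSystem (W := W) P := by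
  constructor
  · intro h
    exact
      { lin := h.lin
        cl := h.cl
        mul := h.mul
        map := h.map
        push := fun X Y f j l a hl ha => h.push X Y f j l hl a ha
        lift := fun X D j hD hL hj x hx hP =>
          h.lift X D hD (Pool.Agent.NH34.Hdg.hardLefschetz_iff.1 hL) j hj x hx hP }
  · intro h
    exact
      { lin := h.lin
        cl := h.cl
        mul := h.mul
        map := h.map
        push := fun X Y f j l hl a ha => h.push X Y f j l a hl ha
        lift := fun X D hD hL j hj x hx hP =>
          h.lift X D j hD (Pool.Agent.NH34.Hdg.hardLefschetz_iff.2 hL) hj x hx hP }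

lemma isMotivated_iff {X : 𝒱.Obj} {j : ℕ} {c : W.H X} :
    IsMotivated W X j c ↔ Pool.Agent.R920.MT.IsMotivated W X j c :=
  forall_congr' fun _ => by rw [isSystem_iff]

end Pool.Agent.NH34.Mot
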