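import Pool.Agent.H914R2.Weil
import Pool.Agent.NH34.Lin.SysDefs
import Pool.Agent.NH34.Lin.HodgeDefs

/-!
# Motivated classes: definitions
-/

open CategoryTheory AlgebraicGeometry

universe u

namespace Pool.Agent.NH34.Mot

open Pool.Agent.H914 Pool.Agent.H914.VarClass Pool.Agent.H914.VarClass.Obj
  Pool.Agent.H914.WeilCohomology Pool.Agent.NH34.Lin

variable {k : Type u} [Field k] {𝒱 : VarClass k} {ops : CycleOps 𝒱}

/-- The properties of cohomology classes of degree `2 j` on the varieties `X`. -/
abbrev Property (W : WeilCohomology.{u, 0} ops) := ∀ X : 𝒱.Obj, ℕ → W.H X → Prop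

/-- The property is linear, it holds for the classes of algebraic cycles, it is stable under products,
pull-backs and push-forwards, and a class `x` of degree `2 j` on `X` has the property if
`L ^ (dim X - 2 j) x` has it, where `L` is the product with the class of a divisor `D` which satisfies
the hard Lefschetz theorem. -/
structure IsSystem {W : WeilCohomology.{u, 0} ops} (P : Property W) : Prop where
  lin : ∀ (X : 𝒱.Obj) (j : ℕ), IsSubspace W.K (P X j)
  cl : ∀ (X : 𝒱.Obj) (j : ℕ) (z : X.Cycles), X.IsCyc j z → P X j (W.cl X z)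
  mul : ∀ X : 𝒱.Obj, IsMultiplicative (P X)
  map : ∀ (X Y : 𝒱.Obj) (f : X ⟶ Y) (j : ℕ), Sends (W.map f).toLinearMap (P Y j) (P X j)
  push : ∀ (X Y : 𝒱.Obj) (f : X ⟶ Y) (j l : ℕ), l + X.dim = j + Y.dim →
    Sends (W.push f) (P X j) (P Y l)
  lift : ∀ (X : 𝒱.Obj) (D : X.Cycles), X.IsCyc 1 D → IsLefschetz (W.gr X) X.dim (W.cl X D) →
    IsLifted (W.gr X) X.dim (W.cl X D) (P X)

/-- The motivated classes of codimension `j` on `X` (André): the classes which have all properties
which satisfy these conditions. -/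
def IsMotivated (W : WeilCohomology.{u, 0} ops) (X : 𝒱.Obj) (j : ℕ) (c : W.H X) : Prop :=
  ∀ P : Property W, IsSystem P → P X j c

end Pool.Agent.NH34.Mot
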